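import Pool.Agent.Y7.LN.Stm
import Pool.Agent.Y6.N.P3

/-!
Project LN (helper7), job LN-DECB (helper219): decay of the energy above the carrier.
-/

open Set Filter Topology MeasureTheory Metric

set_option autoImplicit false

namespace Pool.Agent.Y219.LN

open Pool.Agent.Y5 (Pr Pr_cont Pr_deriv Pr_mono Pr_zero mono_of incr_le)
open Pool.Agent.Y6.N (src ph sqrt_gronQ)
open Pool.Agent.Y303.EJ
open Pool.Agent.Y7.LN

/-! ### A linear inequality with a negative rate -/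

lemma gron_neg {Y D : ℝ → ℝ} {a b γ K : ℝ} (hab : a ≤ b) (hγ : 0 < γ) (hK : 0 ≤ K)
    (hc : ContinuousOn Y (Icc a b)) (hY : ∀ t ∈ Icc a b, 0 ≤ Y t)
    (hd : ∀ t ∈ Ioo a b, HasDerivAt Y (D t) t)
    (h : ∀ t ∈ Ioo a b, D t ≤ -(2 * γ) * Y t + 2 * K * √(Y t)) :
    √(Y b) ≤ Real.exp (-(γ * (b - a))) * √(Y a) + K / γ := by
  have key : ∀ δ : ℝ, 0 < δ →
      √(Y b + δ) ≤ Real.exp (-(γ * (b - a))) * √(Y a + δ) + (K / γ + √δ) := by
    intro δ hδ
    have hsδ : 0 < √δ := Real.sqrt_pos.2 hδ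
    have hmono := mono_of
      (f := fun t => (K / γ + √δ) * Real.exp (γ * (t - a)) - Real.exp (γ * (t - a)) * √(Y t + δ))
      (f' := fun t => (K / γ + √δ) * (Real.exp (γ * (t - a)) * γ) -
        (Real.exp (γ * (t - a)) * γ * √(Y t + δ)
        + Real.exp (γ * (t - a)) * (D t / (2 * √(Y t + δ))))) hab
      (by
        refine ContinuousOn.sub (by fun_prop) (ContinuousOn.mul (by fun_prop) ?_)
        exact (hc.add continuousOn_const).sqrt)
      (fun t ht => by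
        have hpos : 0 < Y t + δ := by have := hY t ⟨ht.1.le, ht.2.le⟩; linarith
        have e1 : HasDerivAt (fun t => √(Y t + δ)) (D t / (2 * √(Y t + δ))) t :=
          ((hd t ht).add_const δ).sqrt hpos.ne'
        have e2 : HasDerivAt (fun t => Real.exp (γ * (t - a))) (Real.exp (γ * (t - a)) * γ) t := by
          have := (((hasDerivAt_id t).sub_const a).const_mul γ).exp
          simpa using this
        exact (e2.const_mul _).sub (e2.mul e1))
      (fun t ht => by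
        have hY0 := hY t ⟨ht.1.le, ht.2.le⟩
        have hpos : 0 < Y t + δ := by linarith
        obtain ⟨g, hg⟩ : ∃ g, g = √(Y t + δ) := ⟨_, rfl⟩
        have hgpos : 0 < g := by rw [hg]; exact Real.sqrt_pos.2 hpos
        have hg2 : g ^ 2 = Y t + δ := by rw [hg]; exact Real.sq_sqrt hpos.le
        have hsq : √(Y t) ≤ g := by rw [hg]; exact Real.sqrt_le_sqrt (by linarith)
        have hgδ : √δ ≤ g := by rw [hg]; exact Real.sqrt_le_sqrt (by linarith)
        have hδ2 : √δ ^ 2 = δ := Real.sq_sqrt hδ.le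
        rw [← hg]
        have h1 : γ * g + D t / (2 * g) ≤ K + γ * √δ := by
          have h2 : D t / (2 * g) ≤ K + γ * √δ - γ * g := by
            rw [div_le_iff₀ (by positivity)]
            have h3 := h t ht
            have h4 := mul_le_mul_of_nonneg_left hsq hK
            have h5 : γ * √δ * √δ ≤ γ * √δ * g :=
              mul_le_mul_of_nonneg_left hgδ (by positivity)
            have h6 : γ * √δ * √δ = γ * δ := by
              calc γ * √δ * √δ = γ * √δ ^ 2 := by ring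
                _ = γ * δ := by rw [hδ2]
            have h7 : γ * g ^ 2 = γ * (Y t + δ) := by rw [hg2]
            nlinarith
          linarith
        have he0 := Real.exp_pos (γ * (t - a))
        have e3 : (K / γ + √δ) * (Real.exp (γ * (t - a)) * γ) =
            Real.exp (γ * (t - a)) * (K + γ * √δ) := by
          field_simp
        rw [e3]
        have h8 := mul_le_mul_of_nonneg_left h1 he0.le
        linarith)
    simp only [sub_self, mul_zero, Real.exp_zero, mul_one, one_mul] at hmono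
    have he : Real.exp (-(γ * (b - a))) * Real.exp (γ * (b - a)) = 1 := by
      rw [← Real.exp_add]; simp
    have he0 := Real.exp_pos (-(γ * (b - a)))
    have he1 : Real.exp (-(γ * (b - a))) ≤ 1 := by
      rw [Real.exp_le_one_iff]
      have := mul_nonneg hγ.le (sub_nonneg.2 hab)
      linarith
    have h9 := mul_le_mul_of_nonneg_left hmono he0.le
    have e4 : Real.exp (-(γ * (b - a))) * ((K / γ + √δ) * Real.exp (γ * (b - a)) -
        Real.exp (γ * (b - a)) * √(Y b + δ)) = (K / γ + √δ) - √(Y b + δ) := by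
      calc _ = (Real.exp (-(γ * (b - a))) * Real.exp (γ * (b - a))) *
            ((K / γ + √δ) - √(Y b + δ)) := by ring
        _ = _ := by rw [he, one_mul]
    rw [e4] at h9
    have hKd : 0 ≤ K / γ + √δ := by positivity
    have h10 : 0 ≤ Real.exp (-(γ * (b - a))) * (K / γ + √δ) := by positivity
    nlinarith
  have c1 : Tendsto (fun δ : ℝ => √(Y b + δ)) (𝓝[>] 0) (𝓝 (√(Y b))) := by
    have : Continuous fun δ : ℝ => √(Y b + δ) := by fun_prop
    have h2 := (this.tendsto 0).mono_left (nhdsWithin_le_nhds (s := Ioi (0 : ℝ)))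
    simpa using h2
  have c2 : Tendsto (fun δ : ℝ => Real.exp (-(γ * (b - a))) * √(Y a + δ) + (K / γ + √δ))
      (𝓝[>] 0) (𝓝 (Real.exp (-(γ * (b - a))) * √(Y a) + K / γ)) := by
    have : Continuous fun δ : ℝ => Real.exp (-(γ * (b - a))) * √(Y a + δ) + (K / γ + √δ) := by
      fun_prop
    have h2 := (this.tendsto 0).mono_left (nhdsWithin_le_nhds (s := Ioi (0 : ℝ)))
    simpa using h2
  exact le_of_tendsto_of_tendsto c1 c2
    (eventually_nhdsWithin_of_forall fun δ hδ => key δ hδ)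

section basics

variable {η : ℝ} {lm L C ℓ : ℕ → ℝ} {B : ℕ → ℕ → ℝ} {N : ℕ} {T : ℝ} {x R : ℕ → ℝ → ℝ}

theorem xle (h : Cb η lm L C ℓ B N T x R) (n : ℕ) {t : ℝ} (ht : t ∈ Ico 0 T) :
    |x n t| ≤ R n t := by
  apply abs_le_of_sq_le_sq _ (h.R0 n t ht)
  have h1 := h.Rsq n t ht
  nlinarith [sq_nonneg (R (n + 1) t)]

theorem Rstep (h : Cb η lm L C ℓ B N T x R) (n : ℕ) {t : ℝ} (ht : t ∈ Ico 0 T) :
    R (n + 1) t ≤ R n t := by
  apply le_of_sq_le_sq _ (h.R0 n t ht)
  have h1 := h.Rsq n t ht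
  nlinarith [sq_nonneg (x n t)]

theorem Rle1 (h : Cb η lm L C ℓ B N T x R) (n : ℕ) {t : ℝ} (ht : t ∈ Ico 0 T) : R n t ≤ 1 := by
  induction n with
  | zero => exact h.R1 t ht
  | succ n ih => exact (Rstep h n ht).trans ih

theorem x1 (h : Cb η lm L C ℓ B N T x R) (n : ℕ) {t : ℝ} (ht : t ∈ Ico 0 T) : |x n t| ≤ 1 :=
  (xle h n ht).trans (Rle1 h n ht)

theorem Lpos (h : Cb η lm L C ℓ B N T x R) (n : ℕ) : 0 < L n :=
  lt_of_lt_of_le one_pos (h.nm.L1 n)

theorem lmpos (h : Cb η lm L C ℓ B N T x R) (n : ℕ) : 0 < lm n :=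
  lt_of_lt_of_le (by norm_num) (h.nm.lm1 n)

theorem e0_pos : 0 < e0 lm := by
  unfold e0
  positivity

theorem ph_pos (n : ℕ) : 0 < ph lm n := Real.exp_pos _

theorem T_le (h : Cb η lm L C ℓ B N T x R) : T ≤ lm 0 := by
  have h1 := h.hT1
  have h2 := h.nm.L1 0
  have h3 := h.hT
  nlinarith

theorem e0T (h : Cb η lm L C ℓ B N T x R) : e0 lm * T ≤ 1 / 10 ^ 30 := by
  have h1 := h.nm.e1
  have h2 := T_le h
  have h3 := e0_pos (lm := lm)
  have h4 := Lpos h 0
  have h5 : e0 lm * T ≤ e0 lm * (L 0 + lm 0) := mul_le_mul_of_nonneg_left (by linarith) h3.le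
  linarith

theorem e0_le (h : Cb η lm L C ℓ B N T x R) : e0 lm ≤ 1 / 10 ^ 30 := by
  have h1 := h.nm.e1
  have h2 : 1 ≤ L 0 + lm 0 := by
    have := lmpos h 0
    have := h.nm.L1 0
    linarith
  have h3 := e0_pos (lm := lm)
  nlinarith

theorem src_nonneg (h : Cb η lm L C ℓ B N T x R) (m : ℕ) (t : ℝ) : 0 ≤ src L C x m t := by
  unfold src
  split_ifs
  · exact le_rfl
  · exact mul_nonneg (mul_nonneg (Lpos h _).le (h.nm.C0 _).le) (sq_nonneg _)

theorem src_le (h : Cb η lm L C ℓ B N T x R) (n : ℕ) {t : ℝ} (ht : t ∈ Ico 0 T) :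
    src L C x (n + 1) t ≤ L n * C n := by
  unfold src
  rw [if_neg n.succ_ne_zero, Nat.add_sub_cancel]
  have h1 : x n t ^ 2 ≤ 1 := by
    have h2 := x1 h n ht
    have h3 := abs_nonneg (x n t)
    rw [← sq_abs]
    nlinarith
  exact mul_le_of_le_one_right (mul_nonneg (Lpos h n).le (h.nm.C0 n).le) h1

/-- the source coefficient -/
noncomputable def Kc (lm L C : ℕ → ℝ) (n : ℕ) : ℝ := L n * C n + 2 * ph lm (n + 1)

theorem Kc_nonneg (h : Cb η lm L C ℓ B N T x R) (n : ℕ) : 0 ≤ Kc lm L C n := by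
  have h1 := mul_nonneg (Lpos h n).le (h.nm.C0 n).le
  have h2 := ph_pos (lm := lm) (n + 1)
  unfold Kc
  linarith

/-- the bound for the derivative of the energy -/
theorem D_le (h : Cb η lm L C ℓ B N T x R) (n : ℕ) {t : ℝ} (ht : t ∈ Ioo 0 T) :
    HasDerivAt (fun s => R (n + 1) s ^ 2) (deriv (fun s => R (n + 1) s ^ 2) t) t ∧
    deriv (fun s => R (n + 1) s ^ 2) t ≤
      2 * (Sg L x (n + 1) t + e0 lm) * R (n + 1) t ^ 2 +
      2 * Kc lm L C n * R (n + 1) t := by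
  obtain ⟨D, hD, hb⟩ := h.dR (n + 1) t ht
  rw [hD.deriv]
  refine ⟨hD, ?_⟩
  have ht' : t ∈ Ico 0 T := ⟨ht.1.le, ht.2⟩
  have h1 := (abs_le.1 hb).2
  have h4 := h.R0 (n + 1) t ht'
  have h5 := src_le h n ht'
  have h6 := src_nonneg h (n + 1) t
  have h7 := (abs_le.1 (xle h (n + 1) ht')).2
  have h8 : src L C x (n + 1) t * x (n + 1) t ≤ L n * C n * R (n + 1) t :=
    (mul_le_mul_of_nonneg_left h7 h6).trans (mul_le_mul_of_nonneg_right h5 h4)
  have h9 : 0 ≤ ∑ i ∈ Finset.Ico (n + 1) (N + 1), ℓ i * x i t ^ 2 :=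
    Finset.sum_nonneg fun i _ => mul_nonneg (h.sq.ℓ_nonneg i) (sq_nonneg _)
  unfold Kc
  nlinarith

theorem cg (h : Cb η lm L C ℓ B N T x R) (n : ℕ) :
    ContinuousOn (fun s => L n * R (n + 1) s ^ 2) (Ico 0 T) :=
  continuousOn_const.mul ((h.cR (n + 1)).pow 2)

theorem cp (h : Cb η lm L C ℓ B N T x R) (m : ℕ) :
    ContinuousOn (fun s => L m * max (x m s) 0) (Ico 0 T) :=
  continuousOn_const.mul ((h.cx m).sup continuousOn_const)

/-! ### times -/

theorem sN_succ {n : ℕ} (hn : n < N) : sN lm L N n = wd lm L n + sN lm L N (n + 1) := by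
  unfold sN
  exact Finset.sum_eq_sum_Ico_succ_bot hn _

theorem sN_nonneg (h : Cb η lm L C ℓ B N T x R) (n : ℕ) : 0 ≤ sN lm L N n :=
  Finset.sum_nonneg fun m _ => (h.wn.w0 m).le

theorem sN_step (h : Cb η lm L C ℓ B N T x R) (n : ℕ) : sN lm L N (n + 1) ≤ sN lm L N n := by
  rcases lt_or_ge n N with hn | hn
  · rw [sN_succ hn]; linarith [h.wn.w0 n]
  · unfold sN
    rw [Finset.Ico_eq_empty_of_le hn, Finset.Ico_eq_empty_of_le (by omega)]

theorem sN_anti (h : Cb η lm L C ℓ B N T x R) {m n : ℕ} (hmn : m ≤ n) :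
    sN lm L N n ≤ sN lm L N m := by
  induction n, hmn using Nat.le_induction with
  | base => exact le_rfl
  | succ n _ ih => exact (sN_step h n).trans ih

/-- `L n s_n ≤ 2 √(lm n)` -/
theorem Ls_le (h : Cb η lm L C ℓ B N T x R) (n : ℕ) : L n * sN lm L N n ≤ 2 * √(lm n) := by
  have h1 := mul_le_mul_of_nonneg_left (h.wn.ws N n) (Lpos h n).le
  have h2 : L n * (2 * wd lm L n) = 2 * √(lm n) := by
    have := (Lpos h n).ne'
    unfold wd; field_simp
  linarith

/-! ### numbers -/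

/-- `L i T exp (-lm (i-1)) ≤ 1/1000` -/
theorem LT_exp (h : Cb η lm L C ℓ B N T x R) (k : ℕ) :
    L (k + 1) * T * Real.exp (-(lm k)) ≤ 1 / 1000 := by
  have hQ0 : 0 < Q η lm k := Real.exp_pos _
  have h1 : L (k + 1) ≤ Q η lm k := h.nm.QL k (k + 1) (by omega)
  have h2 : T ≤ Q η lm k := (T_le h).trans (h.nm.Qlm k 0 (by omega))
  have h3 : L (k + 1) * T ≤ Q η lm k ^ 2 := by
    rw [pow_two]
    exact mul_le_mul h1 h2 h.hT.le hQ0.le
  have h4 := h.nm.Qexp k 2 (-1) (-(1 / 2)) (by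
    have := h.nm.d1 k
    push_cast
    linarith)
  have h5 : L (k + 1) * T * Real.exp (-(lm k)) ≤ Q η lm k ^ 2 * Real.exp (-1 * lm k) := by
    have : Real.exp (-1 * lm k) = Real.exp (-(lm k)) := by congr 1; ring
    rw [this]
    exact mul_le_mul_of_nonneg_right h3 (Real.exp_pos _).le
  have h6 : Real.exp (-(1 / 2) * lm k) ≤ 1 / 1000 := by
    have h7 : Real.exp (-(1 / 2) * lm k) = (Real.exp (1 / 2 * lm k))⁻¹ := by
      rw [← Real.exp_neg]; congr 1; ring
    rw [h7, inv_eq_one_div]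
    refine one_div_le_one_div_of_le (by norm_num) ?_
    have h8 := Real.add_one_le_exp (1 / 2 * lm k)
    have h9 := h.nm.lm1 k
    linarith
  linarith

theorem small_exp (h : Cb η lm L C ℓ B N T x R) (n : ℕ) {c : ℝ} (hc : 1 / 1000 ≤ c) :
    Real.exp (-c * lm n) ≤ 1 / 10000 := by
  have h7 : Real.exp (-c * lm n) = (Real.exp (c * lm n))⁻¹ := by
    rw [← Real.exp_neg]; congr 1; ring
  rw [h7, inv_eq_one_div]
  refine one_div_le_one_div_of_le (by norm_num) ?_
  have h8 := Real.add_one_le_exp (c * lm n)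
  have h9 := h.nm.lm1 n
  have h10 : 1 / 1000 * lm n ≤ c * lm n := mul_le_mul_of_nonneg_right hc (lmpos h n).le
  linarith

theorem LTQ (h : Cb η lm L C ℓ B N T x R) (n : ℕ) : L n * T ≤ Q η lm n ^ 2 := by
  have hQ0 : 0 < Q η lm n := Real.exp_pos _
  have h1 : L n ≤ Q η lm n := h.nm.QL n n (by omega)
  have h2 : T ≤ Q η lm n := (T_le h).trans (h.nm.Qlm n 0 (by omega))
  rw [pow_two]
  exact mul_le_mul h1 h2 h.hT.le hQ0.le

/-- `L n T exp (-c lm n) ≤ exp (-d lm n)` -/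
theorem LTexp (h : Cb η lm L C ℓ B N T x R) (n : ℕ) {c d : ℝ} (hcd : 1 / 10 ^ 6 + d ≤ c) :
    L n * T * Real.exp (-c * lm n) ≤ Real.exp (-d * lm n) := by
  have h4 := h.nm.Qexp n 2 (-c) (-d) (by
    have := h.nm.d1 n
    push_cast
    linarith)
  exact (mul_le_mul_of_nonneg_right (LTQ h n) (Real.exp_pos _).le).trans h4

theorem Kc_le (h : Cb η lm L C ℓ B N T x R) (n : ℕ) :
    Kc lm L C n ≤ 3 * L n * Real.exp (-(3 / 2) * lm n) := by
  have h1 : C n ≤ Real.exp (-(3 / 2) * lm n) := by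
    have := h.nm.C1 n
    have e : Real.exp (-(3 / 2 * lm n)) = Real.exp (-(3 / 2) * lm n) := by congr 1; ring
    rwa [e] at this
  have h2 : ph lm (n + 1) ≤ Real.exp (-(3 / 2) * lm n) := by
    refine (h.nm.ph1 n).trans (Real.exp_le_exp.2 ?_)
    have := lmpos h n
    nlinarith
  have h3 := h.nm.L1 n
  have h4 := Real.exp_pos (-(3 / 2) * lm n)
  have h5 : L n * C n ≤ L n * Real.exp (-(3 / 2) * lm n) :=
    mul_le_mul_of_nonneg_left h1 (Lpos h n).le
  unfold Kc
  nlinarith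

theorem KcT (h : Cb η lm L C ℓ B N T x R) (n : ℕ) :
    Kc lm L C n * T ≤ 3 * Real.exp (-1 * lm n) := by
  have h1 := mul_le_mul_of_nonneg_right (Kc_le h n) h.hT.le
  have h2 := LTexp h n (c := 3 / 2) (d := 1) (by norm_num)
  have e : 3 * L n * Real.exp (-(3 / 2) * lm n) * T =
      3 * (L n * T * Real.exp (-(3 / 2) * lm n)) := by ring
  rw [e] at h1
  linarith

theorem Kcg (h : Cb η lm L C ℓ B N T x R) (n : ℕ) :
    Kc lm L C n / (14 / 100 * L n) ≤ 24 * Real.exp (-(3 / 2) * lm n) := by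
  have h0 := Lpos h n
  rw [div_le_iff₀ (by positivity)]
  have h1 := Kc_le h n
  have h2 := Real.exp_pos (-(3 / 2) * lm n)
  have h3 : 3 * L n * Real.exp (-(3 / 2) * lm n) ≤
      24 * Real.exp (-(3 / 2) * lm n) * (14 / 100 * L n) := by
    have : 0 < L n * Real.exp (-(3 / 2) * lm n) := mul_pos h0 h2
    nlinarith
  linarith

/-! ### the phase with a negative rate -/

theorem phase (h : Cb η lm L C ℓ B N T x R) (i : ℕ) {a v : ℝ} (ha : 0 ≤ a) (hav : a ≤ v)
    (hv : v < T) (hS : ∀ s ∈ Ioo a v, Sg L x (i + 1) s + e0 lm ≤ -(14 / 100 * L i)) :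
    R (i + 1) v ≤ Real.exp (-(14 / 100 * L i * (v - a))) + 24 * Real.exp (-(3 / 2) * lm i) := by
  have hI : Icc a v ⊆ Ico 0 T := fun t ht => ⟨ha.trans ht.1, ht.2.trans_lt hv⟩
  have hI' : Ioo a v ⊆ Ioo 0 T := fun t ht => ⟨ha.trans_lt ht.1, ht.2.trans hv⟩
  have h0 := Lpos h i
  have key := gron_neg (Y := fun s => R (i + 1) s ^ 2)
    (D := deriv (fun s => R (i + 1) s ^ 2)) (γ := 14 / 100 * L i) (K := Kc lm L C i) hav
    (by positivity) (Kc_nonneg h i) (((h.cR (i + 1)).mono hI).pow 2) (fun t _ => sq_nonneg _)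
    (fun t ht => (D_le h i (hI' ht)).1)
    (fun t ht => by
      have ht' := hI ⟨ht.1.le, ht.2.le⟩
      rw [Real.sqrt_sq (h.R0 _ _ ht')]
      have h1 := (D_le h i (hI' ht)).2
      have h2 := mul_le_mul_of_nonneg_right (hS t ht) (sq_nonneg (R (i + 1) t))
      nlinarith)
  simp only [Real.sqrt_sq (h.R0 _ _ (hI ⟨hav, le_rfl⟩)),
    Real.sqrt_sq (h.R0 _ _ (hI ⟨le_rfl, hav⟩))] at key
  have h1 : Real.exp (-(14 / 100 * L i * (v - a))) * R (i + 1) a ≤
      Real.exp (-(14 / 100 * L i * (v - a))) :=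
    mul_le_of_le_one_right (Real.exp_pos _).le (Rle1 h _ (hI ⟨le_rfl, hav⟩))
  have h2 := Kcg h i
  linarith

theorem phase_int (h : Cb η lm L C ℓ B N T x R) (i : ℕ) {a v : ℝ} (ha : 0 ≤ a) (hav : a ≤ v)
    (hv : v < T) (hS : ∀ s ∈ Ioo a v, Sg L x (i + 1) s + e0 lm ≤ -(14 / 100 * L i)) :
    Pr (fun s => L i * R (i + 1) s ^ 2) v - Pr (fun s => L i * R (i + 1) s ^ 2) a ≤ 9 := by
  have h0 := Lpos h i
  obtain ⟨γ, hγ⟩ : ∃ γ, γ = 14 / 100 * L i := ⟨_, rfl⟩
  have hγ0 : 0 < γ := by rw [hγ]; positivity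
  obtain ⟨κ, hκ⟩ : ∃ κ, κ = 24 * Real.exp (-(3 / 2) * lm i) := ⟨_, rfl⟩
  have hκ0 : 0 ≤ κ := by rw [hκ]; positivity
  have hinc := incr_le (f := fun s => -(L i / γ) * Real.exp (-(2 * γ) * (s - a)) +
      2 * L i * κ ^ 2 * s)
    (f' := fun s => -(L i / γ) * (Real.exp (-(2 * γ) * (s - a)) * -(2 * γ)) + 2 * L i * κ ^ 2)
    (g := fun s => L i * R (i + 1) s ^ 2) (cg h i) ⟨ha, hav.trans_lt hv⟩ ⟨ha.trans hav, hv⟩ hav
    (by fun_prop)
    (fun s _ => by
      have e2 : HasDerivAt (fun s => Real.exp (-(2 * γ) * (s - a)))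
          (Real.exp (-(2 * γ) * (s - a)) * -(2 * γ)) s := by
        have := (((hasDerivAt_id s).sub_const a).const_mul (-(2 * γ))).exp
        simpa using this
      refine (e2.const_mul _).add ?_
      simpa using (hasDerivAt_id s).const_mul (2 * L i * κ ^ 2))
    (fun s hs => by
      have hs' : s ∈ Ico 0 T := ⟨ha.trans hs.1.le, hs.2.trans hv⟩
      have hp := phase h i ha hs.1.le hs'.2 (fun w hw => hS w ⟨hw.1, hw.2.trans hs.2⟩)
      rw [← hγ, ← hκ] at hp
      have hR0 := h.R0 (i + 1) s hs'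
      obtain ⟨E, hE⟩ : ∃ E, E = Real.exp (-(γ * (s - a))) := ⟨_, rfl⟩
      have hE0 : 0 < E := by rw [hE]; exact Real.exp_pos _
      rw [← hE] at hp
      have hE2 : Real.exp (-(2 * γ) * (s - a)) = E ^ 2 := by
        rw [hE, ← Real.exp_nat_mul]; congr 1; push_cast; ring
      rw [hE2]
      have e3 : -(L i / γ) * (E ^ 2 * -(2 * γ)) = 2 * L i * E ^ 2 := by field_simp
      rw [e3]
      have e4 : R (i + 1) s ^ 2 ≤ (E + κ) ^ 2 := pow_le_pow_left₀ hR0 hp 2
      have e5 : (E + κ) ^ 2 ≤ 2 * E ^ 2 + 2 * κ ^ 2 := by nlinarith [sq_nonneg (E - κ)]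
      have e6 := mul_le_mul_of_nonneg_left (e4.trans e5) h0.le
      linarith)
  refine hinc.trans ?_
  simp only [sub_self, mul_zero, Real.exp_zero, mul_one]
  have h1 : 0 ≤ L i / γ * Real.exp (-(2 * γ) * (v - a)) := by positivity
  have h2 : L i / γ ≤ 8 := by
    rw [div_le_iff₀ hγ0, hγ]; linarith
  have h3 : 2 * L i * κ ^ 2 * (v - a) ≤ 1 := by
    have e1 : 2 * L i * κ ^ 2 * (v - a) ≤ 2 * L i * κ ^ 2 * T :=
      mul_le_mul_of_nonneg_left (by linarith) (by positivity)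
    have e2 : κ ^ 2 = 576 * Real.exp (-3 * lm i) := by
      rw [hκ, mul_pow, ← Real.exp_nat_mul]; congr 1
      · norm_num
      · congr 1; push_cast; ring
    have e3 := LTexp h i (c := 3) (d := 1) (by norm_num)
    have e4 := small_exp h i (c := 1) (by norm_num)
    have e5 : 2 * L i * κ ^ 2 * T = 1152 * (L i * T * Real.exp (-3 * lm i)) := by rw [e2]; ring
    linarith
  nlinarith

/-! ### positive parts -/

/-- the hypothesis on the carriers -/
def Car (lm L : ℕ → ℝ) (N : ℕ) (x : ℕ → ℝ → ℝ) (i : ℕ) (t : ℝ) : Prop :=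
  ∀ j, j ≤ i → sN lm L N j ≤ t → x j (sN lm L N j) ≤ -(1 / 4)

theorem pos_after (hL : S_LIPB) (hP : S_POSB) (h : Cb η lm L C ℓ B N T x R) {i : ℕ} {t : ℝ}
    (hi : i ≤ N) (ht : t < T) (hc : Car lm L N x i t) {m : ℕ} (hm : m ≤ i) {u : ℝ}
    (hu : sN lm L N m ≤ u) (hut : u ≤ t) :
    Pr (fun s => L m * max (x m s) 0) u - Pr (fun s => L m * max (x m s) 0) (sN lm L N m) ≤
      1 / 1000 := by
  have hs0 := sN_nonneg h m
  have huT : u < T := hut.trans_lt ht
  rcases m with _ | j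
  · have hinc := incr_le (f := fun _ => (0 : ℝ)) (f' := fun _ => 0)
      (g := fun s => L 0 * max (x 0 s) 0) (cp h 0)
      ⟨hs0, hu.trans_lt huT⟩ ⟨hs0.trans hu, huT⟩ hu continuousOn_const
      (fun s _ => hasDerivAt_const s 0) (fun s hs => by
        have h1 := (hL η lm L C ℓ B N T x R h (sN lm L N 0) s hs0 hs.1.le (hs.2.trans huT)).2
        have h2 := hc 0 (Nat.zero_le _) (hu.trans hut)
        have h3 : max (x 0 s) 0 = 0 := max_eq_right (by linarith)
        rw [h3, mul_zero])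
    simp only [sub_self] at hinc
    linarith
  · have hPj := hP η lm L C ℓ B N T x R h j u (by omega) ⟨hs0.trans hu, huT⟩
      (fun i' hi' hsi => by
        have := hc i' (by omega) (hsi.trans hut)
        linarith)
    have hinc := incr_le (f := fun s => L (j + 1) * Real.exp (-(lm j)) * s)
      (f' := fun _ => L (j + 1) * Real.exp (-(lm j)))
      (g := fun s => L (j + 1) * max (x (j + 1) s) 0) (cp h (j + 1))
      ⟨hs0, hu.trans_lt huT⟩ ⟨hs0.trans hu, huT⟩ hu (by fun_prop)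
      (fun s _ => by simpa using (hasDerivAt_id s).const_mul (L (j + 1) * Real.exp (-(lm j))))
      (fun s hs => by
        have h1 := hPj s ⟨hs.1.le, hs.2.le⟩
        have h2 : max (x (j + 1) s) 0 ≤ Real.exp (-(lm j)) := max_le h1 (Real.exp_pos _).le
        exact mul_le_mul_of_nonneg_left h2 (Lpos h _).le)
    have h3 : 0 < L (j + 1) * Real.exp (-(lm j)) := mul_pos (Lpos h _) (Real.exp_pos _)
    have h4 := LT_exp h j
    have h5 : L (j + 1) * Real.exp (-(lm j)) * (u - sN lm L N (j + 1)) ≤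
        L (j + 1) * Real.exp (-(lm j)) * T := mul_le_mul_of_nonneg_left (by linarith) h3.le
    nlinarith

theorem pos_lin (h : Cb η lm L C ℓ B N T x R) (m : ℕ) {v : ℝ} (hv : 0 ≤ v) (hvT : v < T) :
    Pr (fun s => L m * max (x m s) 0) v ≤ L m * v := by
  have hinc := incr_le (f := fun s => L m * s) (f' := fun _ => L m)
    (g := fun s => L m * max (x m s) 0) (cp h m) ⟨le_rfl, h.hT⟩ ⟨hv, hvT⟩ hv (by fun_prop)
    (fun s _ => by simpa using (hasDerivAt_id s).const_mul (L m))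
    (fun s hs => by
      have h1 := (abs_le.1 (x1 h m (t := s) ⟨hs.1.le, hs.2.trans hvT⟩)).2
      have h2 : max (x m s) 0 ≤ 1 := max_le h1 zero_le_one
      exact mul_le_of_le_one_right (Lpos h m).le h2)
  simp only [Pr_zero, mul_zero, sub_zero] at hinc
  exact hinc

theorem pos_all (hL : S_LIPB) (hP : S_POSB) (h : Cb η lm L C ℓ B N T x R) {i : ℕ} {t : ℝ}
    (hi : i ≤ N) (ht : t < T) (hc : Car lm L N x i t) {m : ℕ} (hm : m ≤ i) {u : ℝ}
    (hu : 0 ≤ u) (hut : u ≤ t) :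
    Pr (fun s => L m * max (x m s) 0) u ≤ 2 * √(lm m) + 1 / 1000 := by
  have hLs := Ls_le h m
  rcases le_or_gt (sN lm L N m) u with hs | hs
  · have h1 := pos_after hL hP h hi ht hc hm hs hut
    have h2 := pos_lin h m (sN_nonneg h m) ((hs.trans hut).trans_lt ht)
    linarith
  · have h2 := pos_lin h m hu (hut.trans_lt ht)
    have h3 : L m * u ≤ L m * sN lm L N m := mul_le_mul_of_nonneg_left hs.le (Lpos h m).le
    linarith

theorem pos_nonneg (h : Cb η lm L C ℓ B N T x R) (m : ℕ) {a b : ℝ} (ha : 0 ≤ a) (hab : a ≤ b)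
    (hb : b < T) : Pr (fun s => L m * max (x m s) 0) a ≤ Pr (fun s => L m * max (x m s) 0) b :=
  Pr_mono (cp h m) ⟨ha, hab.trans_lt hb⟩ ⟨ha.trans hab, hb⟩ hab
    (fun _ _ => mul_nonneg (Lpos h m).le (le_max_right _ _))

theorem sqrt_small (h : Cb η lm L C ℓ B N T x R) (m : ℕ) : 2 * √(lm m) + 1 / 1000 ≤ lm m := by
  have h1 := h.nm.lm1 m
  have h2 : √(lm m) ≤ lm m / 10 := by
    rw [Real.sqrt_le_iff]
    exact ⟨by linarith, by nlinarith⟩
  linarith

/-- the exponent -/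
noncomputable def PP (lm L : ℕ → ℝ) (x : ℕ → ℝ → ℝ) (i : ℕ) (s : ℝ) : ℝ :=
  (∑ m ∈ Finset.range (i + 1), Pr (fun s => L m * max (x m s) 0) s) + e0 lm * s

theorem PP_le (hL : S_LIPB) (hP : S_POSB) (h : Cb η lm L C ℓ B N T x R) {k : ℕ} {t : ℝ}
    (hi : k + 1 ≤ N) (ht : t < T) (hc : Car lm L N x (k + 1) t) {b u : ℝ}
    (hb : sN lm L N (k + 1) ≤ b) (hbu : b ≤ u) (hut : u ≤ t) :
    PP lm L x (k + 1) u - PP lm L x (k + 1) b ≤ lm (k + 1) / 10 ^ 8 := by
  have hs0 := sN_nonneg h (k + 1)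
  have hb0 : 0 ≤ b := hs0.trans hb
  have huT : u < T := hut.trans_lt ht
  unfold PP
  rw [Finset.sum_range_succ (fun m => Pr (fun s => L m * max (x m s) 0) u) (k + 1),
    Finset.sum_range_succ (fun m => Pr (fun s => L m * max (x m s) 0) b) (k + 1)]
  have h1 : ∑ m ∈ Finset.range (k + 1), Pr (fun s => L m * max (x m s) 0) u -
      ∑ m ∈ Finset.range (k + 1), Pr (fun s => L m * max (x m s) 0) b ≤
      ∑ m ∈ Finset.range (k + 1), lm m := by
    rw [← Finset.sum_sub_distrib]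
    refine Finset.sum_le_sum fun m hm => ?_
    have hm' : m ≤ k + 1 := by have := Finset.mem_range.1 hm; omega
    have e1 := pos_all hL hP h hi ht hc hm' (hb0.trans hbu) hut
    have e2 := pos_nonneg h m le_rfl hb0 (hbu.trans_lt huT)
    rw [Pr_zero] at e2
    have e3 := sqrt_small h m
    linarith
  have h2 := pos_after hL hP h hi ht hc (le_refl (k + 1)) (hb.trans hbu) hut
  have h3 := pos_nonneg h (k + 1) hs0 hb (hbu.trans_lt huT)
  have h4 : e0 lm * (u - b) ≤ e0 lm * T := mul_le_mul_of_nonneg_left (by linarith) e0_pos.le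
  have h5 := e0T h
  have h6 := h.nm.lmsum k
  have h7 := h.nm.d1 (k + 1)
  have h8 := h.nm.lm1 (k + 1)
  have h9 : dl η (k + 1) * lm (k + 1) ≤ 1 / 100 * lm (k + 1) :=
    mul_le_mul_of_nonneg_right h7 (lmpos h _).le
  have h10 : (1 : ℝ) / 10 ^ 30 ≤ 1 := by norm_num
  nlinarith

theorem Sg_pos_le (h : Cb η lm L C ℓ B N T x R) (i : ℕ) (s : ℝ) :
    Sg L x (i + 1) s ≤ ∑ m ∈ Finset.range (i + 1), L m * max (x m s) 0 := by
  unfold Sg
  exact Finset.sum_le_sum fun m _ => mul_le_mul_of_nonneg_left (le_max_left _ _) (Lpos h m).le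

theorem growth (hL : S_LIPB) (hP : S_POSB) (h : Cb η lm L C ℓ B N T x R) {k : ℕ} {t : ℝ}
    (hi : k + 1 ≤ N) (ht : t < T) (hc : Car lm L N x (k + 1) t) {b u : ℝ}
    (hb : sN lm L N (k + 1) ≤ b) (hbu : b ≤ u) (hut : u ≤ t) :
    R (k + 2) u ≤ Real.exp (lm (k + 1) / 10 ^ 8) *
      (R (k + 2) b + 3 * Real.exp (-1 * lm (k + 1))) := by
  have hb0 : 0 ≤ b := (sN_nonneg h (k + 1)).trans hb
  have huT : u < T := hut.trans_lt ht
  have hI : Icc b u ⊆ Ico 0 T := fun t ht => ⟨hb0.trans ht.1, ht.2.trans_lt huT⟩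
  have hI' : Ioo b u ⊆ Ioo 0 T := fun t ht => ⟨hb0.trans_lt ht.1, ht.2.trans huT⟩
  have key := sqrt_gronQ (Y := fun s => R (k + 2) s ^ 2)
    (D := deriv (fun s => R (k + 2) s ^ 2))
    (P := fun s => Kc lm L C (k + 1) * s) (P' := fun _ => Kc lm L C (k + 1))
    (Q := PP lm L x (k + 1))
    (Q' := fun s => ∑ m ∈ Finset.range (k + 1 + 1), L m * max (x m s) 0 + e0 lm) hbu
    (((h.cR (k + 2)).mono hI).pow 2) (fun t _ => sq_nonneg _)
    (by fun_prop)
    (fun t _ => by simpa using (hasDerivAt_id t).const_mul (Kc lm L C (k + 1)))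
    (fun t _ => Kc_nonneg h (k + 1))
    (by
      unfold PP
      refine ContinuousOn.add ?_ (by fun_prop)
      exact continuousOn_finsetSum _ fun m _ => (Pr_cont (cp h m)).mono hI)
    (fun s hs => by
      have e1 : HasDerivAt (fun s => ∑ m ∈ Finset.range (k + 1 + 1),
          Pr (fun s => L m * max (x m s) 0) s)
          (∑ m ∈ Finset.range (k + 1 + 1), L m * max (x m s) 0) s :=
        HasDerivAt.fun_sum fun m _ => Pr_deriv (cp h m) (hI' hs)
      have e2 : HasDerivAt (fun s : ℝ => e0 lm * s) (e0 lm) s := by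
        simpa using (hasDerivAt_id s).const_mul (e0 lm)
      exact e1.fun_add e2)
    (fun s _ => add_nonneg (Finset.sum_nonneg fun m _ =>
      mul_nonneg (Lpos h m).le (le_max_right _ _)) e0_pos.le)
    (fun s hs => (D_le h (k + 1) (hI' hs)).1)
    (fun s hs => by
      rw [Real.sqrt_sq (h.R0 _ _ (hI ⟨hs.1.le, hs.2.le⟩))]
      have h1 := (D_le h (k + 1) (hI' hs)).2
      have h2 := mul_le_mul_of_nonneg_right (Sg_pos_le h (k + 1) s) (sq_nonneg (R (k + 2) s))
      have e : k + 1 + 1 = k + 2 := rfl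
      rw [e] at h1 h2 ⊢
      nlinarith)
  simp only [Real.sqrt_sq (h.R0 _ _ (hI ⟨hbu, le_rfl⟩)),
    Real.sqrt_sq (h.R0 _ _ (hI ⟨le_rfl, hbu⟩))] at key
  refine key.trans ?_
  have h1 := PP_le hL hP h hi ht hc hb hbu hut
  have h2 : Kc lm L C (k + 1) * u - Kc lm L C (k + 1) * b ≤ 3 * Real.exp (-1 * lm (k + 1)) := by
    have e1 := KcT h (k + 1)
    have e2 : Kc lm L C (k + 1) * (u - b) ≤ Kc lm L C (k + 1) * T :=
      mul_le_mul_of_nonneg_left (by linarith) (Kc_nonneg h _)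
    linarith
  have h3 := h.R0 (k + 2) b (hI ⟨le_rfl, hbu⟩)
  have h4 : 0 ≤ Kc lm L C (k + 1) * u - Kc lm L C (k + 1) * b := by
    have := mul_le_mul_of_nonneg_left hbu (Kc_nonneg h (k + 1))
    linarith
  exact mul_le_mul (Real.exp_le_exp.2 h1) (by linarith) (by linarith) (Real.exp_pos _).le

/-! ### negative rates -/

theorem Lk_le (h : Cb η lm L C ℓ B N T x R) (k : ℕ) : 10 ^ 30 * L k ≤ L (k + 1) / 100 := by
  have h1 := h.nm.Ls k
  have h2 := mul_le_mul_of_nonneg_right (h.nm.d1 (k + 1)) (Lpos h (k + 1)).le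
  linarith

theorem Sg_abs (h : Cb η lm L C ℓ B N T x R) (m : ℕ) {s : ℝ} (hs : s ∈ Ico 0 T) :
    |Sg L x m s| ≤ ∑ j ∈ Finset.range m, L j := by
  unfold Sg
  refine (Finset.abs_sum_le_sum_abs _ _).trans (Finset.sum_le_sum fun j _ => ?_)
  rw [abs_mul, abs_of_pos (Lpos h j)]
  exact mul_le_of_le_one_right (Lpos h j).le (x1 h j hs)

theorem rate_succ (hL : S_LIPB) (h : Cb η lm L C ℓ B N T x R) {k : ℕ} {t : ℝ}
    (ht : t < T) (hc : Car lm L N x (k + 1) t) {s : ℝ} (hs : sN lm L N (k + 1) ≤ s)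
    (hs2 : s ≤ sN lm L N (k + 1) + 1 / (20 * L k)) (hst : s ≤ t) :
    Sg L x (k + 1 + 1) s + e0 lm ≤ -(14 / 100 * L (k + 1)) := by
  have hs0 := sN_nonneg h (k + 1)
  have hsT : s < T := hst.trans_lt ht
  have hk := Lpos h k
  have h1 := (hL η lm L C ℓ B N T x R h (sN lm L N (k + 1)) s hs0 hs hsT).1 k
  have h2 := hc (k + 1) le_rfl (hs.trans hst)
  have h3 : 2 * L k * (s - sN lm L N (k + 1)) ≤ 1 / 10 := by
    have e1 : s - sN lm L N (k + 1) ≤ 1 / (20 * L k) := by linarith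
    have e2 : 2 * L k * (s - sN lm L N (k + 1)) ≤ 2 * L k * (1 / (20 * L k)) :=
      mul_le_mul_of_nonneg_left e1 (by linarith)
    have e3 : 2 * L k * (1 / (20 * L k)) = 1 / 10 := by field_simp; norm_num
    linarith
  have h4 : x (k + 1) s ≤ -(15 / 100) := by linarith
  have h5 := (abs_le.1 (Sg_abs h (k + 1) (s := s) ⟨hs0.trans hs, hsT⟩)).2
  have h6 := h.nm.Lsum k
  have h7 : Sg L x (k + 1 + 1) s = Sg L x (k + 1) s + L (k + 1) * x (k + 1) s := by
    unfold Sg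
    rw [Finset.sum_range_succ]
  have h8 := Lk_le h k
  have h9 := Lpos h (k + 1)
  have h10 : L (k + 1) * x (k + 1) s ≤ L (k + 1) * (-(15 / 100)) :=
    mul_le_mul_of_nonneg_left h4 h9.le
  have h11 := e0_le h
  have h12 := h.nm.L1 (k + 1)
  have h13 := h.nm.L1 k
  have h14 : (1 : ℝ) / 10 ^ 30 ≤ 1 / 1000 := by norm_num
  rw [h7]
  nlinarith

theorem rate_zero (hL : S_LIPB) (h : Cb η lm L C ℓ B N T x R) {t : ℝ}
    (ht : t < T) (hc : Car lm L N x 0 t) {s : ℝ} (hs : sN lm L N 0 ≤ s) (hst : s ≤ t) :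
    Sg L x (0 + 1) s + e0 lm ≤ -(14 / 100 * L 0) := by
  have hs0 := sN_nonneg h 0
  have hsT : s < T := hst.trans_lt ht
  have h1 := (hL η lm L C ℓ B N T x R h (sN lm L N 0) s hs0 hs hsT).2
  have h2 := hc 0 le_rfl (hs.trans hst)
  have h4 : x 0 s ≤ -(24 / 100) := by linarith
  have h7 : Sg L x (0 + 1) s = L 0 * x 0 s := by
    unfold Sg
    simp
  have h9 := h.nm.L1 0
  have h10 : L 0 * x 0 s ≤ L 0 * (-(24 / 100)) := mul_le_mul_of_nonneg_left h4 (by linarith)
  have h11 := e0_le h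
  have h14 : (1 : ℝ) / 10 ^ 30 ≤ 1 / 1000 := by norm_num
  rw [h7]
  linarith

/-- decay after the time `s_(k+1) + 1 / (20 L k)` -/
theorem decay (hL : S_LIPB) (hP : S_POSB) (h : Cb η lm L C ℓ B N T x R) {k : ℕ} {t : ℝ}
    (hi : k + 1 ≤ N) (ht : t < T) (hc : Car lm L N x (k + 1) t) {u : ℝ}
    (hu : sN lm L N (k + 1) + 1 / (20 * L k) ≤ u) (hut : u ≤ t) :
    R (k + 2) u ≤ Real.exp (-(lm (k + 1) / 300)) := by
  have hs0 := sN_nonneg h (k + 1)
  have hk := Lpos h k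
  have hpos : 0 < 1 / (20 * L k) := by positivity
  obtain ⟨b, hb⟩ : ∃ b, b = sN lm L N (k + 1) + 1 / (20 * L k) := ⟨_, rfl⟩
  have hsb : sN lm L N (k + 1) ≤ b := by linarith
  have hbu : b ≤ u := by rw [hb]; exact hu
  have h1 := phase h (k + 1) hs0 hsb ((hbu.trans hut).trans_lt ht) (fun s hs =>
    rate_succ hL h ht hc hs.1.le (by rw [← hb]; exact hs.2.le) ((hs.2.le.trans hbu).trans hut))
  have h2 := growth hL hP h hi ht hc hsb hbu hut
  have e1 : 14 / 100 * L (k + 1) * (b - sN lm L N (k + 1)) = 7 / 1000 * lm (k + 1) := by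
    rw [hb, ← h.sq.lm_succ k]; field_simp; ring
  rw [e1] at h1
  have hlm := h.nm.lm1 (k + 1)
  have hlm0 := lmpos h (k + 1)
  obtain ⟨E, hE⟩ : ∃ E, E = Real.exp (-(7 / 1000 * lm (k + 1))) := ⟨_, rfl⟩
  have hE0 : 0 < E := by rw [hE]; exact Real.exp_pos _
  have h3 : Real.exp (-(3 / 2) * lm (k + 1)) ≤ E := by
    rw [hE, Real.exp_le_exp]; linarith
  have h4 : Real.exp (-1 * lm (k + 1)) ≤ E := by
    rw [hE, Real.exp_le_exp]; linarith
  rw [← hE] at h1
  have h5 : R (k + 2) b ≤ 25 * E := by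
    have : R (k + 1 + 1) b = R (k + 2) b := rfl
    linarith
  have h6 : R (k + 2) u ≤ Real.exp (lm (k + 1) / 10 ^ 8) * (28 * E) :=
    h2.trans (mul_le_mul_of_nonneg_left (by linarith) (Real.exp_pos _).le)
  have h7 : (28 : ℝ) ≤ Real.exp (lm (k + 1) / 1000) := by
    have := Real.add_one_le_exp (lm (k + 1) / 1000)
    linarith
  calc R (k + 2) u ≤ Real.exp (lm (k + 1) / 10 ^ 8) * (28 * E) := h6
    _ ≤ Real.exp (lm (k + 1) / 10 ^ 8) * (Real.exp (lm (k + 1) / 1000) * E) := by gcongr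
    _ = Real.exp (lm (k + 1) / 10 ^ 8 + (lm (k + 1) / 1000 + -(7 / 1000 * lm (k + 1)))) := by
        rw [hE, ← Real.exp_add, ← Real.exp_add]
    _ ≤ _ := by
        rw [Real.exp_le_exp]
        linarith

/-! ### before the time `s_i` -/

theorem c1_le (h : Cb η lm L C ℓ B N T x R) (i : ℕ) {v : ℝ} (hv0 : 0 ≤ v) (hvT : v < T)
    (hvs : v ≤ sN lm L N i) :
    ((∑ m ∈ Finset.range i, L m) + (if i = 0 then 0 else L (i - 1) * C (i - 1)) + ℓ i) * v ≤
      1 / 100 := by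
  rcases i with _ | k
  · simp only [Finset.range_zero, Finset.sum_empty, if_true, zero_add]
    have h1 := h.sq.ℓ_zero
    have h2 := h.sq.ℓ_nonneg 0
    have h3 := h.hT1
    have h4 := h.nm.L1 0
    have h5 := h.nm.d1 0
    have h6 := h.nm.d0 0
    have h7 : dl η 0 ^ 4 ≤ 1 := pow_le_one₀ h6.le (by linarith)
    have h8 : ℓ 0 * (L 0 * T) ≤ ℓ 0 * lm 0 := mul_le_mul_of_nonneg_left h3 h2
    have h9 : dl η 0 ^ 4 * L 0 ≤ L 0 := mul_le_of_le_one_left (by linarith) h7
    have h10 : ℓ 0 * T * L 0 ≤ 1 / 10 ^ 6 * L 0 := by nlinarith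
    have h11 : ℓ 0 * T ≤ 1 / 10 ^ 6 := le_of_mul_le_mul_right h10 (by linarith)
    have h12 : ℓ 0 * v ≤ ℓ 0 * T := mul_le_mul_of_nonneg_left hvT.le h2
    have h13 : (1 : ℝ) / 10 ^ 6 ≤ 1 / 100 := by norm_num
    linarith
  · rw [if_neg k.succ_ne_zero, Nat.add_sub_cancel]
    have hk := Lpos h k
    have h1 := h.nm.Lsum k
    have h2 : L k * C k ≤ L k := by
      refine mul_le_of_le_one_right hk.le ((h.nm.C1 k).trans ?_)
      rw [Real.exp_le_one_iff]
      linarith [lmpos h k]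
    have h3 : ℓ (k + 1) ≤ L k := by
      have e1 := h.sq.ℓ_succ k
      have e2 : dl η (k + 1) ^ 4 ≤ 1 :=
        pow_le_one₀ (h.nm.d0 (k + 1)).le (by linarith [h.nm.d1 (k + 1)])
      have e3 : dl η (k + 1) ^ 4 * L k ≤ L k := mul_le_of_le_one_left hk.le e2
      have e4 := h.sq.ℓ_nonneg (k + 1)
      linarith
    have h4 : ((∑ m ∈ Finset.range (k + 1), L m) + L k * C k + ℓ (k + 1)) * v ≤ 4 * L k * v :=
      mul_le_mul_of_nonneg_right (by linarith) hv0
    have h5 : L k * v ≤ L k * (2 * wd lm L (k + 1)) :=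
      mul_le_mul_of_nonneg_left (hvs.trans (h.wn.ws N (k + 1))) hk.le
    have h6 := h.wn.wL k k le_rfl
    have h7 := h.wn.sq4 (k + 1)
    have h8 : dl η (k + 1) ^ 2 ≤ 1 :=
      pow_le_one₀ (h.nm.d0 (k + 1)).le (by linarith [h.nm.d1 (k + 1)])
    have h9 : dl η (k + 1) ^ 2 / 10 ^ 15 ≤ 1 / 10 ^ 15 := by gcongr
    have h10 : (1 : ℝ) / 10 ^ 15 ≤ 1 / 1000 := by norm_num
    nlinarith

theorem c2_le (h : Cb η lm L C ℓ B N T x R) (i : ℕ) {v : ℝ} (hv0 : 0 ≤ v) (hvT : v < T) :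
    (e0 lm + C i * L i + Real.exp (-(lm (i + 1) / 2)) + ph lm i) * v ≤ 1 / 100 := by
  have h1 : e0 lm * v ≤ e0 lm * T := mul_le_mul_of_nonneg_left hvT.le e0_pos.le
  have h2 := e0T h
  have hL := h.nm.L1 i
  have hL' := h.nm.L1 (i + 1)
  have hC : C i ≤ Real.exp (-(3 / 2) * lm i) := by
    have := h.nm.C1 i
    have e : Real.exp (-(3 / 2 * lm i)) = Real.exp (-(3 / 2) * lm i) := by congr 1; ring
    rwa [e] at this
  have h3 : C i * L i * v ≤ 1 / 10000 := by
    calc C i * L i * v ≤ Real.exp (-(3 / 2) * lm i) * L i * T := by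
          gcongr
      _ = L i * T * Real.exp (-(3 / 2) * lm i) := by ring
      _ ≤ Real.exp (-1 * lm i) := LTexp h i (by norm_num)
      _ ≤ 1 / 10000 := small_exp h i (by norm_num)
  have h4 : Real.exp (-(lm (i + 1) / 2)) * v ≤ 1 / 10000 := by
    have e : Real.exp (-(lm (i + 1) / 2)) = Real.exp (-(1 / 2) * lm (i + 1)) := by congr 1; ring
    rw [e]
    calc Real.exp (-(1 / 2) * lm (i + 1)) * v ≤ Real.exp (-(1 / 2) * lm (i + 1)) * T := by
          gcongr
      _ ≤ Real.exp (-(1 / 2) * lm (i + 1)) * (L (i + 1) * T) := by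
          refine mul_le_mul_of_nonneg_left ?_ (Real.exp_pos _).le
          exact le_mul_of_one_le_left h.hT.le hL'
      _ = L (i + 1) * T * Real.exp (-(1 / 2) * lm (i + 1)) := by ring
      _ ≤ Real.exp (-(1 / 4) * lm (i + 1)) := LTexp h (i + 1) (by norm_num)
      _ ≤ 1 / 10000 := small_exp h (i + 1) (by norm_num)
  have h5 : ph lm i * v ≤ 1 / 10000 := by
    have e : ph lm i = Real.exp (-1 * lm i) := by unfold ph; congr 1; ring
    rw [e]
    calc Real.exp (-1 * lm i) * v ≤ Real.exp (-1 * lm i) * T := by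
          gcongr
      _ ≤ Real.exp (-1 * lm i) * (L i * T) := by
          refine mul_le_mul_of_nonneg_left ?_ (Real.exp_pos _).le
          exact le_mul_of_one_le_left h.hT.le hL
      _ = L i * T * Real.exp (-1 * lm i) := by ring
      _ ≤ Real.exp (-(1 / 2) * lm i) := LTexp h i (by norm_num)
      _ ≤ 1 / 10000 := small_exp h i (by norm_num)
  have h6 : (1 : ℝ) / 10 ^ 30 ≤ 1 / 10000 := by norm_num
  have e : (e0 lm + C i * L i + Real.exp (-(lm (i + 1) / 2)) + ph lm i) * v =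
      e0 lm * v + C i * L i * v + Real.exp (-(lm (i + 1) / 2)) * v + ph lm i * v := by ring
  rw [e]
  linarith

theorem before (h : Cb η lm L C ℓ B N T x R) (i : ℕ) (hi : i ≤ N) {v : ℝ} (hv0 : 0 ≤ v)
    (hvT : v < T) (hvs : v ≤ sN lm L N i) : Pr (fun s => L i * R (i + 1) s ^ 2) v ≤ 3 := by
  obtain ⟨c1, hc1⟩ : ∃ c1, c1 = (∑ m ∈ Finset.range i, L m) +
    (if i = 0 then 0 else L (i - 1) * C (i - 1)) + ℓ i := ⟨_, rfl⟩
  obtain ⟨c2, hc2⟩ : ∃ c2, c2 = e0 lm + C i * L i + Real.exp (-(lm (i + 1) / 2)) + ph lm i :=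
    ⟨_, rfl⟩
  have hI' : Ioo 0 v ⊆ Ioo 0 T := fun t ht => ⟨ht.1, ht.2.trans hvT⟩
  have hinc := incr_le (f := fun s => -(x i s) + (c1 + c2) * s)
    (f' := fun s => -(deriv (x i) s) + (c1 + c2))
    (g := fun s => L i * R (i + 1) s ^ 2) (cg h i) ⟨le_rfl, h.hT⟩ ⟨hv0, hvT⟩ hv0
    (by
      refine ContinuousOn.add ((h.cx i).mono fun t ht => ⟨ht.1, ht.2.trans_lt hvT⟩).neg ?_
      fun_prop)
    (fun s hs => by
      obtain ⟨w, hw, -⟩ := h.dx i hi s (hI' hs)
      have e1 : HasDerivAt (x i) (deriv (x i) s) s := by rw [hw.deriv]; exact hw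
      exact e1.neg.add (by simpa using (hasDerivAt_id s).const_mul (c1 + c2)))
    (fun s hs => by
      obtain ⟨w, hw, hb⟩ := h.dx i hi s (hI' hs)
      rw [hw.deriv]
      have hs' : s ∈ Ico 0 T := ⟨hs.1.le, hs.2.trans hvT⟩
      have hx := x1 h i hs'
      have hx0 := abs_nonneg (x i s)
      have hR0 := h.R0 (i + 1) s hs'
      have hR1 := Rle1 h (i + 1) hs'
      have hR2 : R (i + 1) s ^ 2 ≤ 1 := pow_le_one₀ hR0 hR1
      have b0 := (abs_le.1 hb).2
      have b1 : |Sg L x i s * x i s| ≤ ∑ m ∈ Finset.range i, L m := by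
        rw [abs_mul]
        exact (mul_le_of_le_one_right (abs_nonneg _) hx).trans (Sg_abs h i hs')
      have b2 : src L C x i s ≤ if i = 0 then 0 else L (i - 1) * C (i - 1) := by
        rcases i with _ | k
        · unfold src; simp
        · rw [if_neg k.succ_ne_zero, Nat.add_sub_cancel]
          exact src_le h k hs'
      have b3 : |ℓ i * x i s| ≤ ℓ i := by
        rw [abs_mul, abs_of_nonneg (h.sq.ℓ_nonneg i)]
        exact mul_le_of_le_one_right (h.sq.ℓ_nonneg i) hx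
      have d1 : e0 lm * |x i s| ≤ e0 lm := mul_le_of_le_one_right e0_pos.le hx
      have d2 : C i * L i * |x i s| * R (i + 1) s ≤ C i * L i := by
        have e1 : 0 ≤ C i * L i := mul_nonneg (h.nm.C0 i).le (Lpos h i).le
        calc C i * L i * |x i s| * R (i + 1) s ≤ C i * L i * |x i s| :=
              mul_le_of_le_one_right (mul_nonneg e1 hx0) hR1
          _ ≤ C i * L i := mul_le_of_le_one_right e1 hx
      have d3 : Real.exp (-(lm (i + 1) / 2)) * R (i + 1) s ^ 2 ≤ Real.exp (-(lm (i + 1) / 2)) :=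
        mul_le_of_le_one_right (Real.exp_pos _).le hR2
      have d4 := (abs_le.1 b1).2
      have d5 := (abs_le.1 b3).1
      have d6 := (abs_le.1 hb).2
      rw [hc1, hc2]
      linarith)
  have hv' : v ∈ Ico 0 T := ⟨hv0, hvT⟩
  have h1 := abs_le.1 (x1 h i hv')
  have h2 := abs_le.1 (x1 h i (t := 0) ⟨le_rfl, h.hT⟩)
  have h3 := c1_le h i hv0 hvT hvs
  have h4 := c2_le h i hv0 hvT
  rw [← hc1] at h3
  rw [← hc2] at h4
  simp only [Pr_zero, mul_zero, sub_zero, add_zero] at hinc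
  linarith [h1.1, h2.2]

/-- the last part of the integral -/
theorem late (hL : S_LIPB) (hP : S_POSB) (h : Cb η lm L C ℓ B N T x R) {k : ℕ} {t : ℝ}
    (hi : k + 1 ≤ N) (ht : t < T) (hc : Car lm L N x (k + 1) t) {b u : ℝ}
    (hb : b = sN lm L N (k + 1) + 1 / (20 * L k)) (hbu : b ≤ u) (hut : u ≤ t) :
    Pr (fun s => L (k + 1) * R (k + 1 + 1) s ^ 2) u -
      Pr (fun s => L (k + 1) * R (k + 1 + 1) s ^ 2) b ≤ 1 := by
  have hs0 := sN_nonneg h (k + 1)
  have hk := Lpos h k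
  have hpos : 0 < 1 / (20 * L k) := by positivity
  have hb0 : 0 ≤ b := by rw [hb]; linarith
  have huT : u < T := hut.trans_lt ht
  have hinc := incr_le (f := fun s => L (k + 1) * Real.exp (-(1 / 150) * lm (k + 1)) * s)
    (f' := fun _ => L (k + 1) * Real.exp (-(1 / 150) * lm (k + 1)))
    (g := fun s => L (k + 1) * R (k + 1 + 1) s ^ 2) (cg h (k + 1)) ⟨hb0, hbu.trans_lt huT⟩
    ⟨hb0.trans hbu, huT⟩ hbu (by fun_prop)
    (fun s _ => by
      simpa using (hasDerivAt_id s).const_mul (L (k + 1) * Real.exp (-(1 / 150) * lm (k + 1))))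
    (fun s hs => by
      have hs' : s ∈ Ico 0 T := ⟨hb0.trans hs.1.le, hs.2.trans huT⟩
      have h1 := decay hL hP h hi ht hc (u := s) (by rw [← hb]; exact hs.1.le) (hs.2.le.trans hut)
      have h2 : R (k + 2) s ^ 2 ≤ Real.exp (-(lm (k + 1) / 300)) ^ 2 :=
        pow_le_pow_left₀ (h.R0 (k + 2) s hs') h1 2
      have h3 : Real.exp (-(lm (k + 1) / 300)) ^ 2 = Real.exp (-(1 / 150) * lm (k + 1)) := by
        rw [← Real.exp_nat_mul]; congr 1; push_cast; ring
      rw [h3] at h2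
      exact mul_le_mul_of_nonneg_left h2 (Lpos h (k + 1)).le)
  have h1 := LTexp h (k + 1) (c := 1 / 150) (d := 1 / 1000) (by norm_num)
  have h2 := small_exp h (k + 1) (c := 1 / 1000) le_rfl
  have h3 : 0 < L (k + 1) * Real.exp (-(1 / 150) * lm (k + 1)) :=
    mul_pos (Lpos h _) (Real.exp_pos _)
  have h4 : L (k + 1) * Real.exp (-(1 / 150) * lm (k + 1)) * (u - b) ≤
      L (k + 1) * Real.exp (-(1 / 150) * lm (k + 1)) * T :=
    mul_le_mul_of_nonneg_left (by linarith) h3.le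
  nlinarith

end basics

theorem t_DECB (hL : S_LIPB) (hP : S_POSB) : S_DECB := by
  intro η lm L C ℓ B N T x R h i t hi ht hcar
  have hc : Car lm L N x i t := hcar
  refine ⟨fun k hk u hu => ?_, fun u hu => ?_⟩
  · subst hk
    refine decay hL hP h (by omega) ht.2 hc ?_ hu.2
    have h1 := sN_succ (lm := lm) (L := L) (N := N) (n := k) (by omega)
    have h2 := h.wn.wbrk k
    linarith [hu.1]
  · have huT : u < T := hu.2.trans_lt ht.2
    have hs0 := sN_nonneg h i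
    rcases le_or_gt u (sN lm L N i) with hus | hus
    · have := before h i (by omega) hu.1 huT hus
      linarith
    · have h1 := before h i (by omega) hs0 (hus.trans huT) le_rfl
      rcases i with _ | k
      · have h2 := phase_int h 0 hs0 hus.le huT (fun s hs =>
          rate_zero hL h ht.2 hc hs.1.le (hs.2.le.trans hu.2))
        linarith
      · obtain ⟨b, hb⟩ : ∃ b, b = sN lm L N (k + 1) + 1 / (20 * L k) := ⟨_, rfl⟩
        have hpos : 0 < 1 / (20 * L k) := by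
          have := Lpos h k
          positivity
        rcases le_or_gt u b with hub | hub
        · have h2 := phase_int h (k + 1) hs0 hus.le huT (fun s hs =>
            rate_succ hL h ht.2 hc hs.1.le (by rw [← hb]; exact hs.2.le.trans hub)
              (hs.2.le.trans hu.2))
          linarith
        · have h2 := phase_int h (k + 1) hs0 (v := b) (by linarith) (hub.trans huT) (fun s hs =>
            rate_succ hL h ht.2 hc hs.1.le (by rw [← hb]; exact hs.2.le)
              ((hs.2.le.trans hub.le).trans hu.2))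
          have h3 := late hL hP h (by omega) ht.2 hc hb hub.le hu.2
          linarith

end Pool.Agent.Y219.LN
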